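import Mathlib
import Pool.Agent.Q111.MatchHit

/-!
Shattered matchings in maximal intersecting families: `⌊n/3⌋ ≤ k*(n)` for all `n ≥ 1` and
`k*(n) ≤ 7n/16` for all large `n`.
-/

namespace Pool.Agent.Results.MP_5c4cbf_co.LinearBounds

open Finset

variable {n : ℕ}

/-- A family is intersecting if any two members (equal or not) have non-empty intersection. -/
def Intersecting (F : Finset (Finset (Fin n))) : Prop :=
  ∀ A ∈ F, ∀ B ∈ F, (A ∩ B).Nonempty

/-- Maximal intersecting family: nothing can be added. -/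
def MaxIntersecting (F : Finset (Finset (Fin n))) : Prop :=
  Intersecting F ∧ ∀ S, S ∉ F → ¬ Intersecting (insert S F)

/-- A matching: a collection of pairwise disjoint two-element sets. -/
def IsMatching (M : Finset (Finset (Fin n))) : Prop :=
  (∀ e ∈ M, e.card = 2) ∧ ∀ e ∈ M, ∀ f ∈ M, e ≠ f → Disjoint e f

/-- `F` shatters the matching `M`: each choice `C` of one point out of every pair of `M` is the
trace of a member of `F` on the union of the pairs. -/
def Shatters (F M : Finset (Finset (Fin n))) : Prop :=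
  ∀ C : Finset (Fin n), C ⊆ M.biUnion id → (∀ e ∈ M, (C ∩ e).card = 1) →
    ∃ A ∈ F, A ∩ M.biUnion id = C

/-- The integers `k` such that every maximal intersecting family on `n` points shatters some
matching of size `k`. -/
def good (n : ℕ) : Set ℕ :=
  {k | ∀ F : Finset (Finset (Fin n)), MaxIntersecting F →
    ∃ M : Finset (Finset (Fin n)), IsMatching M ∧ M.card = k ∧ Shatters F M}

/-- `k*(n)`. -/
noncomputable def kstar (n : ℕ) : ℕ := sSup (good n)

/-! ### Numerical part -/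

lemma choose_bound (a b : ℕ) (hab : b ≤ a) :
    ((a.choose b : ℕ) : ℝ) ≤ (9 / 7 : ℝ) ^ a * (7 / 2) ^ b := by
  have h := add_pow (2 / 7 : ℝ) 1 a
  have h1 : ((2 / 7 : ℝ)) ^ b * 1 ^ (a - b) * (a.choose b : ℝ)
      ≤ ∑ m ∈ range (a + 1), (2 / 7 : ℝ) ^ m * 1 ^ (a - m) * (a.choose m : ℝ) := by
    apply single_le_sum (f := fun m => (2 / 7 : ℝ) ^ m * 1 ^ (a - m) * (a.choose m : ℝ))
    · intro i _
      positivity
    · exact mem_range.2 (by omega)
  rw [← h, one_pow, mul_one] at h1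
  have h2 : (2 / 7 + 1 : ℝ) = 9 / 7 := by norm_num
  rw [h2] at h1
  have h3 : ((2 / 7 : ℝ)) ^ b * (7 / 2) ^ b = 1 := by
    rw [← mul_pow]; norm_num
  calc ((a.choose b : ℕ) : ℝ) = ((2 / 7 : ℝ) ^ b * (a.choose b : ℝ)) * (7 / 2) ^ b := by
        rw [mul_comm ((2 / 7 : ℝ) ^ b), mul_assoc, h3, mul_one]
    _ ≤ _ := mul_le_mul_of_nonneg_right h1 (by positivity)

lemma growth (ρ : ℝ) (hρ : 1 < ρ) : ∃ n0 : ℕ, ∀ n ≥ n0,
    (32 * ((n : ℝ) ^ 2 + 1)) ^ 16 ≤ ρ ^ n := by
  have h1 := tendsto_pow_const_div_const_pow_of_one_lt 48 hρ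
  have h2 := (Metric.tendsto_atTop.1 h1) 1 one_pos
  obtain ⟨n0, hn0⟩ := h2
  refine ⟨max n0 64, fun n hn => ?_⟩
  have h3 := hn0 n (le_trans (le_max_left _ _) hn)
  have h4 : 64 ≤ n := le_trans (le_max_right _ _) hn
  have h4R : (64 : ℝ) ≤ (n : ℝ) := by exact_mod_cast h4
  rw [Real.dist_eq, sub_zero, abs_of_nonneg (by positivity), div_lt_one (by positivity)] at h3
  have h5 : 32 * ((n : ℝ) ^ 2 + 1) ≤ (n : ℝ) ^ 3 := by nlinarith
  calc (32 * ((n : ℝ) ^ 2 + 1)) ^ 16 ≤ ((n : ℝ) ^ 3) ^ 16 :=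
        pow_le_pow_left₀ (by positivity) h5 16
    _ = (n : ℝ) ^ 48 := by rw [← pow_mul]
    _ ≤ ρ ^ n := h3.le

/-- The numerical heart: for large `n` and `k = ⌊7n/16⌋ + 1`. -/
lemma numeric : ∃ n0 : ℕ, 64 ≤ n0 ∧ ∀ n ≥ n0, ∀ k, k = 7 * n / 16 + 1 →
    32 * ((n : ℝ) ^ 2 + 1) * ((n - k).choose k : ℝ) ≤ (2 : ℝ) ^ k ∧
    32 * ((n : ℝ) ^ 2 + 1) * (2 : ℝ) ^ (n - 2 * k) ≤ (2 : ℝ) ^ k := by
  obtain ⟨n1, hn1⟩ := growth (64 / 59) (by norm_num)
  obtain ⟨n2, hn2⟩ := growth 32 (by norm_num)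
  refine ⟨max 64 (max n1 n2), le_max_left _ _, fun n hn k hk => ?_⟩
  have hn64 : 64 ≤ n := le_trans (le_max_left _ _) hn
  have h1 := hn1 n (le_trans (le_trans (le_max_left _ _) (le_max_right _ _)) hn)
  have h2 := hn2 n (le_trans (le_trans (le_max_right _ _) (le_max_right _ _)) hn)
  have hk1 : 7 * n ≤ 16 * k := by omega
  have hk2 : 2 * k ≤ n := by omega
  have hX : (0 : ℝ) ≤ 32 * ((n : ℝ) ^ 2 + 1) := by positivity
  constructor
  · -- compare sixteenth powers
    rw [← pow_le_pow_iff_left₀ (by positivity) (by positivity) (show (16 : ℕ) ≠ 0 by norm_num)]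
    have h3 : (((n - k).choose k : ℕ) : ℝ) ≤ (9 / 7 : ℝ) ^ (n - k) * (7 / 2) ^ (n - 2 * k) := by
      rw [← Nat.choose_symm (show k ≤ n - k by omega), show n - k - k = n - 2 * k by omega]
      exact choose_bound _ _ (by omega)
    have h4 : (((n - k).choose k : ℕ) : ℝ) ^ 16 ≤ 118 ^ n := by
      calc (((n - k).choose k : ℕ) : ℝ) ^ 16
          ≤ ((9 / 7 : ℝ) ^ (n - k) * (7 / 2) ^ (n - 2 * k)) ^ 16 :=
            pow_le_pow_left₀ (by positivity) h3 16
        _ = (9 / 7 : ℝ) ^ ((n - k) * 16) * (7 / 2) ^ ((n - 2 * k) * 16) := by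
            rw [mul_pow, ← pow_mul, ← pow_mul]
        _ ≤ (9 / 7 : ℝ) ^ (9 * n) * (7 / 2) ^ (2 * n) := by
            apply mul_le_mul
            · exact pow_le_pow_right₀ (by norm_num) (by omega)
            · exact pow_le_pow_right₀ (by norm_num) (by omega)
            · positivity
            · positivity
        _ = ((9 / 7 : ℝ) ^ 9 * (7 / 2) ^ 2) ^ n := by
            rw [mul_pow, ← pow_mul, ← pow_mul]
        _ ≤ 118 ^ n := by
            apply pow_le_pow_left₀ (by positivity)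
            norm_num
    calc (32 * ((n : ℝ) ^ 2 + 1) * ((n - k).choose k : ℝ)) ^ 16
        = (32 * ((n : ℝ) ^ 2 + 1)) ^ 16 * ((n - k).choose k : ℝ) ^ 16 := mul_pow _ _ _
      _ ≤ (64 / 59) ^ n * 118 ^ n := mul_le_mul h1 h4 (by positivity) (by positivity)
      _ = 2 ^ (7 * n) := by
          rw [← mul_pow, pow_mul]; norm_num
      _ ≤ 2 ^ (k * 16) := pow_le_pow_right₀ (by norm_num) (by omega)
      _ = ((2 : ℝ) ^ k) ^ 16 := by rw [pow_mul]
  · rw [← pow_le_pow_iff_left₀ (by positivity) (by positivity) (show (16 : ℕ) ≠ 0 by norm_num)]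
    calc (32 * ((n : ℝ) ^ 2 + 1) * (2 : ℝ) ^ (n - 2 * k)) ^ 16
        = (32 * ((n : ℝ) ^ 2 + 1)) ^ 16 * (2 : ℝ) ^ ((n - 2 * k) * 16) := by
          rw [mul_pow, ← pow_mul]
      _ ≤ 32 ^ n * 2 ^ (2 * n) :=
          mul_le_mul h2 (pow_le_pow_right₀ (by norm_num) (by omega)) (by positivity)
            (by positivity)
      _ = 2 ^ (7 * n) := by
          rw [pow_mul, pow_mul, ← mul_pow]; norm_num
      _ ≤ 2 ^ (k * 16) := pow_le_pow_right₀ (by norm_num) (by omega)
      _ = ((2 : ℝ) ^ k) ^ 16 := by rw [pow_mul]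

lemma two_pow_le_choose {n k : ℕ} (hk : 1 ≤ k) (h : 2 * k ≤ n) : 2 ^ k ≤ n.choose k := by
  have h1 := Nat.four_pow_le_two_mul_self_mul_centralBinom k hk
  have h2 : Nat.centralBinom k ≤ n.choose k := by
    rw [Nat.centralBinom_eq_two_mul_choose]
    exact Nat.choose_le_choose k h
  refine le_trans ?_ h2
  have h3 : 2 * k ≤ 2 ^ k := by
    obtain ⟨j, rfl⟩ : ∃ j, k = j + 1 := ⟨k - 1, by omega⟩
    have := Nat.lt_two_pow_self (n := j)
    rw [pow_succ]
    omega
  have h4 : 2 ^ k * 2 ^ k ≤ 2 ^ k * Nat.centralBinom k := by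
    calc 2 ^ k * 2 ^ k = 4 ^ k := by rw [← mul_pow]; norm_num
      _ ≤ 2 * k * Nat.centralBinom k := h1
      _ ≤ 2 ^ k * Nat.centralBinom k := Nat.mul_le_mul_right _ h3
  exact Nat.le_of_mul_le_mul_left h4 (by positivity)

/-- The hitting family exists for all large `n`. -/
lemma exists_hitting : ∃ n0 : ℕ, 64 ≤ n0 ∧ ∀ n ≥ n0, ∀ k, k = 7 * n / 16 + 1 →
    ∃ G : Finset (Finset (Fin n)), (∀ A ∈ G, ∀ B ∈ G, A ∩ B ≠ ∅) ∧
      ∀ e : Fin k × Bool → Fin n, Function.Injective e →
        ∃ x, Q111.MatchHit.tr e x ∈ G := by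
  obtain ⟨n0, h64, hn0⟩ := numeric
  refine ⟨n0, h64, fun n hn k hk => ?_⟩
  obtain ⟨hA, hB⟩ := hn0 n hn k hk
  have hk1 : 1 ≤ k := by omega
  have hkn : 2 * k ≤ n := by omega
  have hn64 : 64 ≤ n := h64.trans hn
  have hN := two_pow_le_choose hk1 hkn
  set N := n.choose k with hNdef
  set D := (n - k).choose k with hDdef
  have hDpos : 0 < D := Nat.choose_pos (by omega)
  have hDposR : (0 : ℝ) < D := by exact_mod_cast hDpos
  have h8 : 8 * D ≤ N := by
    have h1 : (8 : ℝ) * D ≤ (2 : ℝ) ^ k := by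
      refine le_trans ?_ hA
      have : (0 : ℝ) ≤ (n : ℝ) ^ 2 := by positivity
      nlinarith
    have h2 : 8 * D ≤ 2 ^ k := by exact_mod_cast h1
    exact h2.trans hN
  have ht1 : 4 * D * (N / (4 * D)) ≤ N := Nat.mul_div_le _ _
  have ht2 : N ≤ 8 * D * (N / (4 * D)) := by
    have h1 := Nat.lt_mul_div_succ N (show 0 < 4 * D by omega)
    have h2 : 2 ≤ N / (4 * D) := by
      rw [Nat.le_div_iff_mul_le (by omega)]
      omega
    have h3 : 4 * D * (N / (4 * D) + 1) ≤ 8 * D * (N / (4 * D)) := by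
      have : 4 * D * 1 ≤ 4 * D * (N / (4 * D)) := Nat.mul_le_mul_left _ (by omega)
      calc 4 * D * (N / (4 * D) + 1) = 4 * D * (N / (4 * D)) + 4 * D * 1 := by ring
        _ ≤ 4 * D * (N / (4 * D)) + 4 * D * (N / (4 * D)) := by omega
        _ = 8 * D * (N / (4 * D)) := by ring
    omega
  refine Q111.MatchHit.exists_family hk1 hkn (N / (4 * D)) ht1 ht2 ?_ ?_
  · have : (2 : ℝ) ^ k ≤ (N : ℝ) := by exact_mod_cast hN
    have h0 : (0 : ℝ) ≤ (N : ℝ) := Nat.cast_nonneg _
    linarith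
  · rw [← hDdef]
    have hnR : (1 : ℝ) ≤ (n : ℝ) := by exact_mod_cast (show 1 ≤ n by omega)
    have e1 : Real.exp (-((2 : ℝ) ^ k / (32 * (D : ℝ)))) ≤ Real.exp (-((n : ℝ) ^ 2 + 1)) := by
      apply Real.exp_le_exp.2
      rw [neg_le_neg_iff, le_div_iff₀ (by positivity)]
      linarith
    have e2 : Real.exp (-((2 : ℝ) ^ k / (4 * (2 : ℝ) ^ (n - 2 * k))))
        ≤ Real.exp (-((n : ℝ) ^ 2 + 1)) := by
      apply Real.exp_le_exp.2
      rw [neg_le_neg_iff, le_div_iff₀ (by positivity)]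
      have hp : (0 : ℝ) < (2 : ℝ) ^ (n - 2 * k) := by positivity
      have hq : (0 : ℝ) ≤ (n : ℝ) ^ 2 := by positivity
      nlinarith [mul_nonneg hq hp.le]
    have e3 : (n : ℝ) ^ (2 * k) ≤ Real.exp ((n : ℝ) ^ 2) := by
      calc (n : ℝ) ^ (2 * k) ≤ (n : ℝ) ^ n := pow_le_pow_right₀ hnR hkn
        _ ≤ (Real.exp (n : ℝ)) ^ n := by
            apply pow_le_pow_left₀ (by positivity)
            have := Real.add_one_le_exp (n : ℝ)
            linarith
        _ = Real.exp ((n : ℝ) ^ 2) := by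
            rw [← Real.exp_nat_mul, sq]
    have e4 : (2 : ℝ) < Real.exp 1 := by
      have := Real.exp_one_gt_d9
      linarith
    calc (n : ℝ) ^ (2 * k) * (Real.exp (-((2 : ℝ) ^ k / (32 * (D : ℝ))))
          + Real.exp (-((2 : ℝ) ^ k / (4 * (2 : ℝ) ^ (n - 2 * k)))))
        ≤ Real.exp ((n : ℝ) ^ 2) * (Real.exp (-((n : ℝ) ^ 2 + 1))
          + Real.exp (-((n : ℝ) ^ 2 + 1))) := by
          apply mul_le_mul e3 (add_le_add e1 e2) (by positivity) (by positivity)
      _ = 2 * (Real.exp 1)⁻¹ := by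
          rw [← two_mul, mul_left_comm, ← Real.exp_add, ← Real.exp_neg]
          congr 2
          ring
      _ < 1 := by
          rw [mul_inv_lt_iff₀ (Real.exp_pos 1), one_mul]
          exact e4

/-! ### Combinatorial part -/

lemma maxInt_compl {F : Finset (Finset (Fin n))} (hn : 1 ≤ n) (hF : MaxIntersecting F)
    {A : Finset (Fin n)} (hA : A ∉ F) : Aᶜ ∈ F := by
  classical
  have key : ∀ S, S ∉ F → S.Nonempty → ∃ B ∈ F, S ∩ B = ∅ := by
    intro S hS hne
    have h := hF.2 S hS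
    unfold Intersecting at h
    push Not at h
    obtain ⟨B, hB, C, hC, hBC⟩ := h
    rcases mem_insert.1 hB with hB1 | hB1
    · rcases mem_insert.1 hC with hC1 | hC1
      · rw [hB1, hC1, inter_self] at hBC
        exact absurd hBC hne.ne_empty
      · exact ⟨C, hC1, by rw [← hB1]; exact hBC⟩
    · rcases mem_insert.1 hC with hC1 | hC1
      · exact ⟨B, hB1, by rw [← hC1, inter_comm]; exact hBC⟩
      · exact absurd hBC (hF.1 B hB1 C hC1).ne_empty
  have huniv : (univ : Finset (Fin n)) ∈ F := by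
    by_contra hcon
    obtain ⟨B, hB, hd⟩ := key univ hcon ⟨⟨0, by omega⟩, mem_univ _⟩
    rw [univ_inter] at hd
    have := hF.1 B hB B hB
    rw [inter_self, hd] at this
    exact absurd this (by simp)
  rcases A.eq_empty_or_nonempty with h0 | hne
  · rw [h0, compl_empty]; exact huniv
  · obtain ⟨B, hB, hd⟩ := key A hA hne
    by_contra hcon
    have hsub : B ⊆ Aᶜ := by
      intro z hz
      rw [mem_compl]
      intro hzA
      have : z ∈ A ∩ B := mem_inter.2 ⟨hzA, hz⟩
      rw [hd] at this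
      exact absurd this (notMem_empty _)
    have hBne : B.Nonempty := by
      have := hF.1 B hB B hB
      rwa [inter_self] at this
    obtain ⟨B', hB', hd'⟩ := key Aᶜ hcon (hBne.mono hsub)
    obtain ⟨z, hz⟩ := hF.1 B hB B' hB'
    obtain ⟨hz1, hz2⟩ := mem_inter.1 hz
    have : z ∈ Aᶜ ∩ B' := mem_inter.2 ⟨hsub hz1, hz2⟩
    rw [hd'] at this
    exact absurd this (notMem_empty _)

lemma exists_max {G : Finset (Finset (Fin n))} (hG : Intersecting G) :
    ∃ F, G ⊆ F ∧ MaxIntersecting F := by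
  classical
  set P : Finset (Finset (Finset (Fin n))) :=
    (univ : Finset (Finset (Fin n))).powerset.filter (fun F => G ⊆ F ∧ Intersecting F) with hP
  have hne : P.Nonempty := ⟨G, mem_filter.2 ⟨mem_powerset.2 (subset_univ _), Subset.refl _, hG⟩⟩
  obtain ⟨F, hF, hmax⟩ := P.exists_max_image card hne
  obtain ⟨-, hGF, hFI⟩ := mem_filter.1 hF
  refine ⟨F, hGF, hFI, fun S hS hcon => ?_⟩
  have h1 : insert S F ∈ P := mem_filter.2 ⟨mem_powerset.2 (subset_univ _),
    hGF.trans (subset_insert _ _), hcon⟩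
  have h2 := hmax _ h1
  rw [card_insert_of_notMem hS] at h2
  omega

/-- If no transversal of the matching is a member, then the matching is shattered. -/
lemma shatters_of_no_transversal (hn : 1 ≤ n) {F M : Finset (Finset (Fin n))}
    (hF : MaxIntersecting F) (hM : IsMatching M)
    (h : ∀ C : Finset (Fin n), C ⊆ M.biUnion id → (∀ e ∈ M, (C ∩ e).card = 1) → C ∉ F) :
    Shatters F M := by
  classical
  intro C hC hCM
  have h1 := h (M.biUnion id \ C) sdiff_subset (by
    intro e he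
    have h2 : (M.biUnion id \ C) ∩ e = e \ C := by
      ext z
      simp only [mem_inter, mem_sdiff, mem_biUnion, id]
      constructor
      · rintro ⟨⟨_, h3⟩, h4⟩; exact ⟨h4, h3⟩
      · rintro ⟨h3, h4⟩; exact ⟨⟨⟨e, he, h3⟩, h4⟩, h3⟩
    rw [h2]
    have h3 := card_inter_add_card_sdiff e C
    have h4 := hCM e he
    rw [inter_comm] at h4
    have h5 := hM.1 e he
    omega)
  refine ⟨_, maxInt_compl hn hF h1, ?_⟩
  ext z
  simp only [mem_inter, mem_compl, mem_sdiff, not_and, not_not]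
  constructor
  · rintro ⟨h2, h3⟩; exact h2 h3
  · intro h2; exact ⟨fun _ => h2, hC h2⟩

/-- A set with at least `2k` points carries a matching of size `k`. -/
lemma exists_matching (k : ℕ) : ∀ Y : Finset (Fin n), 2 * k ≤ Y.card →
    ∃ M : Finset (Finset (Fin n)), IsMatching M ∧ M.card = k ∧ M.biUnion id ⊆ Y := by
  classical
  induction k with
  | zero =>
    intro Y _
    exact ⟨∅, ⟨by simp, by simp⟩, by simp, by simp⟩
  | succ k ih =>
    intro Y hY
    obtain ⟨e, heY, he⟩ := exists_subset_card_eq (s := Y) (n := 2) (by omega)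
    obtain ⟨M, hM, hMc, hMY⟩ := ih (Y \ e) (by rw [card_sdiff_of_subset heY]; omega)
    have hdis : ∀ f ∈ M, Disjoint e f := by
      intro f hf
      have h1 : f ⊆ Y \ e := (subset_biUnion_of_mem id hf).trans hMY
      rw [disjoint_left]
      intro z hz hzf
      exact (mem_sdiff.1 (h1 hzf)).2 hz
    have heM : e ∉ M := by
      intro h1
      have := hdis e h1
      rw [disjoint_self] at this
      have h2 : e = ∅ := this
      rw [h2] at he
      simp at he
    refine ⟨insert e M, ⟨?_, ?_⟩, ?_, ?_⟩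
    · intro f hf
      rcases mem_insert.1 hf with h1 | h1
      · rw [h1]; exact he
      · exact hM.1 f h1
    · intro f hf g hg hfg
      rcases mem_insert.1 hf with h1 | h1
      · rcases mem_insert.1 hg with h2 | h2
        · exact absurd (h1.trans h2.symm) hfg
        · rw [h1]; exact hdis g h2
      · rcases mem_insert.1 hg with h2 | h2
        · rw [h2]; exact (hdis f h1).symm
        · exact hM.2 f h1 g h2 hfg
    · rw [card_insert_of_notMem heM, hMc]
    · rw [biUnion_insert]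
      exact union_subset heY (hMY.trans sdiff_subset)

/-- The points of a transversal number `|M|`. -/
lemma card_transversal {M : Finset (Finset (Fin n))} (hM : IsMatching M) {C : Finset (Fin n)}
    (hC : C ⊆ M.biUnion id) (hCM : ∀ e ∈ M, (C ∩ e).card = 1) : C.card = M.card := by
  classical
  have h1 : C = M.biUnion (fun e => C ∩ e) := by
    ext z
    simp only [mem_biUnion, mem_inter]
    constructor
    · intro hz
      obtain ⟨e, he, hze⟩ := mem_biUnion.1 (hC hz)
      exact ⟨e, he, hz, hze⟩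
    · rintro ⟨e, _, hz, _⟩; exact hz
  have h2 : (M.biUnion (fun e => C ∩ e)).card = ∑ e ∈ M, (C ∩ e).card := by
    apply card_biUnion
    intro e he f hf hef
    refine disjoint_left.2 ?_
    intro z hz hz'
    exact disjoint_left.1 (hM.2 e he f hf hef) (mem_inter.1 hz).2 (mem_inter.1 hz').2
  rw [h1, h2, sum_congr rfl hCM]
  simp

/-- Lower bound. -/
lemma mem_good_of_three {k : ℕ} (hn : 1 ≤ n) (hk : 3 * k ≤ n) : k ∈ good n := by
  classical
  intro F hF
  by_cases hP : ∃ P ∈ F, P.card ≤ k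
  · obtain ⟨P, hPF, hPk⟩ := hP
    obtain ⟨M, hM, hMc, hMY⟩ := exists_matching k Pᶜ (by
      rw [card_compl, Fintype.card_fin]; omega)
    refine ⟨M, hM, hMc, shatters_of_no_transversal hn hF hM ?_⟩
    intro C hC _ hCF
    obtain ⟨z, hz⟩ := hF.1 C hCF P hPF
    obtain ⟨hz1, hz2⟩ := mem_inter.1 hz
    exact (mem_compl.1 (hMY (hC hz1))) hz2
  · push Not at hP
    obtain ⟨M, hM, hMc, -⟩ := exists_matching k (univ : Finset (Fin n)) (by
      rw [card_univ, Fintype.card_fin]; omega)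
    refine ⟨M, hM, hMc, shatters_of_no_transversal hn hF hM ?_⟩
    intro C hC hCM hCF
    have h1 := hP C hCF
    have h2 := card_transversal hM hC hCM
    omega

/-- Sub-matchings of shattered matchings are shattered. -/
lemma shatters_mono {F M M' : Finset (Finset (Fin n))} (hM : IsMatching M) (hsub : M' ⊆ M)
    (h : Shatters F M) : Shatters F M' := by
  classical
  intro C' hC' hC'M
  have hpt : ∀ e : Finset (Fin n), ∃ z : Option (Fin n), e ∈ M → ∃ y, z = some y ∧ y ∈ e := by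
    intro e
    by_cases he : e ∈ M
    · have h1 := hM.1 e he
      obtain ⟨y, hy⟩ : e.Nonempty := card_pos.1 (by omega)
      exact ⟨some y, fun _ => ⟨y, rfl, hy⟩⟩
    · exact ⟨none, fun h => absurd h he⟩
  choose q hq using hpt
  rcases M.eq_empty_or_nonempty with hM0 | ⟨e0, he0⟩
  · have : M' = M := by
      rw [hM0] at hsub ⊢
      exact subset_empty.1 hsub
    rw [this] at hC' hC'M ⊢
    exact h C' hC' hC'M
  obtain ⟨z0, -, -⟩ := hq e0 he0
  set p : Finset (Fin n) → Fin n := fun e => (q e).getD z0 with hpdef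
  have hp : ∀ e ∈ M, p e ∈ e := by
    intro e he
    obtain ⟨y, hy, hye⟩ := hq e he
    have : p e = y := by rw [hpdef]; simp [hy]
    rw [this]; exact hye
  set C : Finset (Fin n) := C' ∪ (M \ M').image p with hC
  have hinter' : ∀ e ∈ M', C ∩ e = C' ∩ e := by
    intro e he
    ext z
    simp only [hC, mem_inter, mem_union, mem_image, mem_sdiff]
    constructor
    · rintro ⟨h1 | ⟨f, ⟨hf, hf'⟩, rfl⟩, h2⟩
      · exact ⟨h1, h2⟩
      · exfalso
        have hne : f ≠ e := by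
          intro h3; rw [h3] at hf'; exact hf' he
        exact disjoint_left.1 (hM.2 f hf e (hsub he) hne) (hp f hf) h2
    · rintro ⟨h1, h2⟩; exact ⟨Or.inl h1, h2⟩
  have hinter : ∀ e ∈ M, (C ∩ e).card = 1 := by
    intro e he
    by_cases he' : e ∈ M'
    · rw [hinter' e he']; exact hC'M e he'
    · rw [card_eq_one]
      refine ⟨p e, ?_⟩
      ext z
      simp only [hC, mem_inter, mem_union, mem_image, mem_sdiff, mem_singleton]
      constructor
      · rintro ⟨h1 | ⟨f, ⟨hf, hf'⟩, rfl⟩, h2⟩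
        · exfalso
          obtain ⟨g, hg, hzg⟩ := mem_biUnion.1 (hC' h1)
          have hne : g ≠ e := by
            intro h3; rw [h3] at hg; exact he' hg
          exact disjoint_left.1 (hM.2 g (hsub hg) e he hne) hzg h2
        · by_contra h3
          have hne : f ≠ e := by
            intro h4; rw [h4] at h3; exact h3 rfl
          exact disjoint_left.1 (hM.2 f hf e he hne) (hp f hf) h2
      · intro h1
        rw [h1]
        exact ⟨Or.inr ⟨e, ⟨he, he'⟩, rfl⟩, hp e he⟩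
  have hCsub : C ⊆ M.biUnion id := by
    intro z hz
    rcases mem_union.1 hz with h1 | h1
    · exact (biUnion_subset_biUnion_of_subset_left _ hsub) (hC' h1)
    · obtain ⟨f, hf, rfl⟩ := mem_image.1 h1
      exact mem_biUnion.2 ⟨f, (mem_sdiff.1 hf).1, hp f (mem_sdiff.1 hf).1⟩
  obtain ⟨A, hA, hAC⟩ := h C hCsub hinter
  refine ⟨A, hA, ?_⟩
  ext z
  constructor
  · intro hz
    obtain ⟨hz1, hz2⟩ := mem_inter.1 hz
    obtain ⟨e, he, hze⟩ := mem_biUnion.1 hz2
    have h1 : z ∈ C := by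
      rw [← hAC]
      exact mem_inter.2 ⟨hz1, mem_biUnion.2 ⟨e, hsub he, hze⟩⟩
    have h2 : z ∈ C ∩ e := mem_inter.2 ⟨h1, hze⟩
    rw [hinter' e he] at h2
    exact (mem_inter.1 h2).1
  · intro hz
    have h1 : z ∈ C := mem_union_left _ hz
    rw [← hAC] at h1
    exact mem_inter.2 ⟨(mem_inter.1 h1).1, hC' hz⟩

lemma good_down {k k' : ℕ} (h : k ∈ good n) (hk : k' ≤ k) : k' ∈ good n := by
  intro F hF
  obtain ⟨M, hM, hMc, hS⟩ := h F hF
  obtain ⟨M', hM', hM'c⟩ := exists_subset_card_eq (s := M) (n := k') (by omega)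
  exact ⟨M', ⟨fun e he => hM.1 e (hM' he), fun e he f hf => hM.2 e (hM' he) f (hM' hf)⟩, hM'c,
    shatters_mono hM hM' hS⟩

/-- A matching of size `k` comes from an injective map `Fin k × Bool → Fin n`. -/
lemma exists_enum {k : ℕ} {M : Finset (Finset (Fin n))} (hM : IsMatching M) (hMc : M.card = k) :
    ∃ e : Fin k × Bool → Fin n, Function.Injective e ∧
      ∃ E : Fin k → Finset (Fin n), (∀ s, s ∈ M ↔ ∃ i, E i = s) ∧
        Function.Injective E ∧ ∀ i, E i = {e (i, true), e (i, false)} := by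
  classical
  have hpair : ∀ s : M, ∃ ab : Fin n × Fin n, ab.1 ≠ ab.2 ∧ (s : Finset (Fin n)) = {ab.1, ab.2} := by
    intro s
    obtain ⟨a, b, hab, hs⟩ := card_eq_two.1 (hM.1 s s.2)
    exact ⟨(a, b), hab, hs⟩
  choose ab hab hs using hpair
  let φ : Fin k ≃ M := (M.equivFinOfCardEq hMc).symm
  refine ⟨fun p => if p.2 then (ab (φ p.1)).1 else (ab (φ p.1)).2, ?_, fun i => (φ i : Finset _),
    ?_, ?_, ?_⟩
  · have hmem : ∀ p : Fin k × Bool,
        (if p.2 then (ab (φ p.1)).1 else (ab (φ p.1)).2) ∈ (φ p.1 : Finset (Fin n)) := by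
      intro p
      rw [hs (φ p.1)]
      split_ifs <;> simp
    intro p q hpq
    have h1 : p.1 = q.1 := by
      by_contra hne
      have h2 : (φ p.1 : Finset (Fin n)) ≠ (φ q.1 : Finset (Fin n)) := by
        intro h3
        exact hne (φ.injective (Subtype.ext h3))
      have h3 := hM.2 _ (φ p.1).2 _ (φ q.1).2 h2
      have h4 := hmem p
      have h5 := hmem q
      simp only at hpq
      rw [← hpq] at h5
      exact disjoint_left.1 h3 h4 h5
    obtain ⟨i, b⟩ := p
    obtain ⟨j, b'⟩ := q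
    simp only at h1 hpq
    subst h1
    have h2 := hab (φ i)
    cases b <;> cases b'
    · rfl
    · exfalso
      exact h2 hpq.symm
    · exfalso
      exact h2 hpq
    · rfl
  · intro s
    constructor
    · intro h
      refine ⟨φ.symm ⟨s, h⟩, ?_⟩
      simp
    · rintro ⟨i, rfl⟩
      exact (φ i).2
  · intro i j hij
    exact φ.injective (Subtype.ext hij)
  · intro i
    simpa using hs (φ i)

/-- If a transversal of `M` is a member of an intersecting family, `M` is not shattered. -/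
lemma not_shatters {k : ℕ} {F M : Finset (Finset (Fin n))} (hF : Intersecting F)
    {e : Fin k × Bool → Fin n} (he : Function.Injective e)
    {E : Fin k → Finset (Fin n)} (hE : ∀ s, s ∈ M ↔ ∃ i, E i = s)
    (hEe : ∀ i, E i = {e (i, true), e (i, false)}) {x : Fin k → Bool}
    (hx : Q111.MatchHit.tr e x ∈ F) : ¬ Shatters F M := by
  classical
  intro hS
  have hmemE : ∀ i b, e (i, b) ∈ E i := by
    intro i b
    rw [hEe i]
    cases b <;> simp
  have hsubU : ∀ y : Fin k → Bool, Q111.MatchHit.tr e y ⊆ M.biUnion id := by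
    intro y z hz
    obtain ⟨i, -, rfl⟩ := mem_image.1 hz
    exact mem_biUnion.2 ⟨E i, (hE _).2 ⟨i, rfl⟩, hmemE i _⟩
  obtain ⟨A, hA, hAC⟩ := hS (Q111.MatchHit.tr e (fun i => !x i)) (hsubU _) (by
    intro s hs
    obtain ⟨i, rfl⟩ := (hE s).1 hs
    rw [card_eq_one]
    refine ⟨e (i, !x i), ?_⟩
    ext z
    simp only [mem_inter, mem_singleton]
    constructor
    · rintro ⟨h1, h2⟩
      obtain ⟨j, -, rfl⟩ := mem_image.1 h1
      rw [hEe i, mem_insert, mem_singleton] at h2
      rcases h2 with h2 | h2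
      · have h3 := he h2
        rw [Prod.mk.injEq] at h3
        rw [h3.1]
      · have h3 := he h2
        rw [Prod.mk.injEq] at h3
        rw [h3.1]
    · intro h1
      rw [h1]
      exact ⟨mem_image.2 ⟨i, mem_univ _, rfl⟩, hmemE i _⟩)
  obtain ⟨z, hz⟩ := hF _ hx A hA
  obtain ⟨hz1, hz2⟩ := mem_inter.1 hz
  have h1 : z ∈ A ∩ M.biUnion id := mem_inter.2 ⟨hz2, hsubU x hz1⟩
  rw [hAC] at h1
  obtain ⟨i, -, hi⟩ := mem_image.1 hz1
  obtain ⟨j, -, hj⟩ := mem_image.1 h1
  have h2 := he (hi.trans hj.symm)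
  rw [Prod.mk.injEq] at h2
  obtain ⟨h3, h4⟩ := h2
  rw [h3] at h4
  change x j = !x j at h4
  cases hxj : x j <;> rw [hxj] at h4 <;> exact absurd h4 (by decide)

lemma good_bdd (n : ℕ) : BddAbove (good n) := by
  classical
  refine ⟨n, fun k hk => ?_⟩
  obtain ⟨F, -, hF⟩ := exists_max (G := (∅ : Finset (Finset (Fin n)))) (by
    intro A hA; exact absurd hA (notMem_empty _))
  obtain ⟨M, hM, hMc, -⟩ := hk F hF
  obtain ⟨e, he, -⟩ := exists_enum hM hMc
  have := Fintype.card_le_of_injective e he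
  rw [Fintype.card_prod, Fintype.card_bool, Fintype.card_fin, Fintype.card_fin] at this
  omega

/-- **Main theorem.** For every `n ≥ 1` the set of good `k` has a largest element, which is
`k*(n)`, and `⌊n/3⌋ ≤ k*(n)`; and for all large `n` one has `k*(n) ≤ 7n/16`. -/
theorem result :
    (∀ n : ℕ, 1 ≤ n → IsGreatest (good n) (kstar n) ∧ n / 3 ≤ kstar n) ∧
    ∃ n0 : ℕ, ∀ n ≥ n0, 16 * kstar n ≤ 7 * n := by
  have hgr : ∀ n : ℕ, 1 ≤ n → IsGreatest (good n) (kstar n) := by
    intro n hn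
    have h0 : 0 ∈ good n := mem_good_of_three hn (by omega)
    exact ⟨Nat.sSup_mem ⟨0, h0⟩ (good_bdd n), fun k hk => le_csSup (good_bdd n) hk⟩
  refine ⟨fun n hn => ⟨hgr n hn, (hgr n hn).2 (mem_good_of_three hn (by omega))⟩, ?_⟩
  obtain ⟨n0, h64, hn0⟩ := exists_hitting
  refine ⟨n0, fun n hn => ?_⟩
  by_contra hcon
  push Not at hcon
  have hn1 : 1 ≤ n := by omega
  have hk : 7 * n / 16 + 1 ≤ kstar n := by omega
  have hgood := good_down (hgr n hn1).1 hk
  obtain ⟨G, hGI, hG⟩ := hn0 n hn _ rfl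
  obtain ⟨F, hGF, hF⟩ := exists_max (G := G) (fun A hA B hB => nonempty_iff_ne_empty.2 (hGI A hA B hB))
  obtain ⟨M, hM, hMc, hS⟩ := hgood F hF
  obtain ⟨e, he, E, hE, -, hEe⟩ := exists_enum hM hMc
  obtain ⟨x, hx⟩ := hG e he
  exact not_shatters hF.1 he hE hEe (hGF hx) hS

end Pool.Agent.Results.MP_5c4cbf_co.LinearBounds
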